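import Pool.Agent.TH627.UT.Types
import Pool.Agent.TH627.UT.Lower

/-!
# No universal space for bounded large transfinite dimension

For every ordinal `α` with `ω ≤ α < ω₁` and every separable metrizable space `Z` with
`trInd Z ≤ α` there is a compact metrizable space `X` with `trInd X ≤ α` which does not embed in
`Z` (there is not even a continuous injection of `X` into `Z`).  Hence the class of separable
metrizable spaces with `trInd ≤ α` has no universal space, for every `ω ≤ α < ω₁`.

Proof idea, for `α = λ + n` with `λ` a limit ordinal.  Let `Φ_m` be compacta whose products with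
all cubes have `trInd` bounded above by `β_m + k` and below (in the sense of essential families of
opposite faces) by `β_m`, where `β_m` increases to `λ`.  For `d : ℕ → ℕ` let `X_d` be a compactum
consisting of the cube `I ^ (n + 1)` and, for every `j`, a copy of `I ^ (n + 1) × Φ_(d j)` whose
fibres over the vertices of the dyadic grid of mesh `2 ^ (-j)` are collapsed to points; these
copies converge to the cube.  Partitioning along the skeleta of the grids gives `trInd X_d ≤ λ + n`.
If all the `X_d` were embedded in `Z`, a diagonal argument over countably many `(n + 1)`-tuples of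
functions on `Z` and a tower of `n + 1` partitions in `Z`, missing the images of the finitely many
vertices, would give a set of dimension `< λ` in `Z` which is too small for infinitely many of
the `X_d`.
-/

set_option autoImplicit false

open Set Topology TopologicalSpace Ordinal

universe u

namespace Pool.Agent.Results.MP_00e098_gt.NoUniversalTrInd

/-- `TrIndLE α X` says that the large transfinite dimension satisfies `trInd X ≤ α`: for every
closed `A` and every open `V` containing `A` there is an open `U` with `A ⊆ U ⊆ V` whose boundary
`frontier U` is empty (that is, has `trInd = -1`) or satisfies `trInd (frontier U) ≤ β` for some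
ordinal `β < α`. -/
def TrIndLE (α : Ordinal.{0}) (X : Type u) [TopologicalSpace X] : Prop :=
  ∀ A V : Set X, IsClosed A → IsOpen V → A ⊆ V →
    ∃ U : Set X, IsOpen U ∧ A ⊆ U ∧ U ⊆ V ∧
      (frontier U = ∅ ∨ ∃ β : Ordinal.{0}, ∃ _ : β < α, TrIndLE β (frontier U))
termination_by α

theorem trIndLE_iff {α : Ordinal.{0}} : ∀ {X : Type u} [TopologicalSpace X],
    TrIndLE α X ↔ Pool.Agent.TH627.UT.TrIndLE α X := by
  induction α using WellFoundedLT.induction with
  | ind α ih =>
  intro X _
  rw [TrIndLE, Pool.Agent.TH627.UT.TrIndLE]
  refine forall_congr' fun A => forall_congr' fun V => forall_congr' fun _ =>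
    forall_congr' fun _ => forall_congr' fun _ => exists_congr fun U => ?_
  refine and_congr_right fun _ => and_congr_right fun _ => and_congr_right fun _ =>
    or_congr_right ?_
  exact exists_congr fun β => exists_congr fun hβ => ih β hβ

theorem trIndLE_iff_dle {α : Ordinal.{0}} {X : Type u} [TopologicalSpace X] [NormalSpace X] :
    TrIndLE α X ↔ Pool.Agent.TH627.UT.Dle α (univ : Set X) :=
  trIndLE_iff.trans Pool.Agent.TH627.UT.trIndLE_iff_univ

/-- Let `ω ≤ α < ω₁`. For every separable metrizable space `Z` with `trInd Z ≤ α` there is a
compact metrizable (hence separable) space `X` with `trInd X ≤ α` such that no continuous map of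
`X` into `Z` is injective; in particular `X` is not homeomorphic to a subspace of `Z`. -/
theorem result (α : Ordinal.{0}) (hω : ω ≤ α) (hω₁ : α < ω₁)
    (Z : Type u) [TopologicalSpace Z] [MetrizableSpace Z] [SeparableSpace Z]
    (hZ : TrIndLE α Z) :
    ∃ (X : Type) (_ : TopologicalSpace X), CompactSpace X ∧ MetrizableSpace X ∧
      SeparableSpace X ∧ TrIndLE α X ∧ ∀ e : X → Z, Continuous e → ¬ Function.Injective e := by
  let _ := metrizableSpaceMetric Z
  have _ : SecondCountableTopology Z := UniformSpace.secondCountable_of_separable Z
  have hdecomp : ω * (α / ω) + α % ω = α := Ordinal.div_add_mod α ω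
  obtain ⟨n, hn⟩ := Ordinal.lt_omega0.1 (Ordinal.mod_lt α omega0_ne_zero)
  have hq : 0 < α / ω := (Ordinal.div_pos omega0_ne_zero).2 hω
  have hl : Order.IsSuccLimit (ω * (α / ω)) :=
    Ordinal.isSuccLimit_mul_left isSuccLimit_omega0 hq
  have hl1 : ω * (α / ω) < ω₁ := (Ordinal.mul_div_le α ω).trans_lt hω₁
  rw [hn] at hdecomp
  rw [trIndLE_iff_dle, ← hdecomp] at hZ
  obtain ⟨X, hX, hc, hD, he⟩ := Pool.Agent.TH627.UT.main hl hl1 n hZ
  refine ⟨X, inferInstance, hc, inferInstance, inferInstance, ?_, he⟩
  rw [trIndLE_iff_dle, ← hdecomp]
  exact hD

end Pool.Agent.Results.MP_00e098_gt.NoUniversalTrInd
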